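import Mathlib

/-!
# Finite oriented matroids, given by their signed circuits

`OMat α` is the type of oriented matroids with ground set the (finite) type `α`, given by their
signed circuits.  `OMat.toMatroid` is the underlying matroid.
-/

set_option autoImplicit false

open Set

namespace Pool.Agent.Q288.OM

/-- An oriented matroid with ground set `α`, given by its set of signed circuits, which satisfies
the usual signed circuit axioms (nonempty, symmetric, incomparable, weak elimination). -/
structure OMat (α : Type*) where
  /-- the signed circuits -/
  circuits : Set (α → SignType)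
  zero_notMem : (0 : α → SignType) ∉ circuits
  neg_mem : ∀ X ∈ circuits, -X ∈ circuits
  incomp : ∀ X ∈ circuits, ∀ Y ∈ circuits,
    Function.support X ⊆ Function.support Y → X = Y ∨ X = -Y
  elim : ∀ X ∈ circuits, ∀ Y ∈ circuits, X ≠ -Y → ∀ e, X e ≠ 0 → Y e = -X e →
    ∃ Z ∈ circuits, Z e = 0 ∧ ∀ f, Z f ≠ 0 → Z f = X f ∨ Z f = Y f

theorem support_neg_sign {α : Type*} (X : α → SignType) :
    Function.support (-X) = Function.support X := by
  ext f
  simp only [Function.mem_support, Pi.neg_apply]
  generalize X f = a
  revert a; decide

namespace OMat

variable {α : Type*} (O : OMat α)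

/-- A set is independent if it contains the support of no signed circuit. -/
def Indep (I : Set α) : Prop := ∀ X ∈ O.circuits, ¬ Function.support X ⊆ I

theorem sign_cases {a b : SignType} (ha : a ≠ 0) (hb : b ≠ 0) : b = a ∨ b = -a := by
  revert a b; decide

variable {O}

theorem Indep.subset {I J : Set α} (h : O.Indep J) (hIJ : I ⊆ J) : O.Indep I :=
  fun X hX hs => h X hX (hs.trans hIJ)

/-- Unsigned elimination, in the form: an independent set together with one element contains at
most one circuit. -/
theorem support_eq_of_subset_insert {I : Set α} (hI : O.Indep I) {e : α} {X Y : α → SignType}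
    (hX : X ∈ O.circuits) (hY : Y ∈ O.circuits) (hXs : Function.support X ⊆ insert e I)
    (hYs : Function.support Y ⊆ insert e I) : Function.support X = Function.support Y := by
  have hXe : X e ≠ 0 := by
    intro h
    apply hI X hX
    intro f hf
    rcases hXs hf with rfl | h'
    · exact absurd h hf
    · exact h'
  have hYe : Y e ≠ 0 := by
    intro h
    apply hI Y hY
    intro f hf
    rcases hYs hf with rfl | h'
    · exact absurd h hf
    · exact h'
  by_contra hne
  have key : ∀ Y' ∈ O.circuits, Function.support Y' = Function.support Y → Y' e = -X e → False := by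
    intro Y' hY' hs hYe'
    have h1 : X ≠ -Y' := by
      rintro h
      apply hne
      rw [← hs, h, support_neg_sign]
    obtain ⟨Z, hZ, hZe, hZf⟩ := O.elim X hX Y' hY' h1 e hXe hYe'
    apply hI Z hZ
    intro f hf
    have hfe : f ≠ e := by
      rintro rfl
      exact hf hZe
    have : f ∈ insert e I := by
      rcases hZf f hf with h | h
      · exact hXs (by rw [Function.mem_support, ← h]; exact hf)
      · apply hYs
        rw [← hs, Function.mem_support, ← h]
        exact hf
    rcases this with h | h
    · exact absurd h hfe
    · exact h
  rcases sign_cases hXe hYe with h | h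
  · exact key (-Y) (O.neg_mem Y hY) (support_neg_sign Y) (by rw [Pi.neg_apply, h])
  · exact key Y hY rfl h

theorem augment [Finite α] {I J : Set α} (hI : O.Indep I) (hJ : O.Indep J)
    (hlt : I.ncard < J.ncard) : ∃ e ∈ J, e ∉ I ∧ O.Indep (insert e I) := by
  have key : ∀ (n : ℕ) (K : Set α), O.Indep K → K ⊆ I ∪ J → I.ncard < K.ncard →
      (I \ K).ncard = n → ∃ e ∈ J, e ∉ I ∧ O.Indep (insert e I) := by
    intro n
    induction n using Nat.strong_induction_on with
    | _ n ih =>
      intro K hK hKs hc hn
      by_cases hIK : I ⊆ K
      · have hss : I ⊂ K := by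
          refine ⟨hIK, fun h => ?_⟩
          rw [Subset.antisymm hIK h] at hc
          exact lt_irrefl _ hc
        obtain ⟨e, heK, heI⟩ := Set.exists_of_ssubset hss
        refine ⟨e, ?_, heI, hK.subset (insert_subset heK hIK)⟩
        rcases hKs heK with h | h
        · exact absurd h heI
        · exact h
      · obtain ⟨e, heI, heK⟩ := Set.not_subset.1 hIK
        by_cases hex : ∃ f ∈ K \ I, O.Indep ((insert e K) \ {f})
        · obtain ⟨f, hf, hT⟩ := hex
          have hfe : e ≠ f := by
            rintro rfl
            exact heK hf.1
          refine ih (I \ ((insert e K) \ {f})).ncard ?_ _ hT ?_ ?_ rfl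
          · rw [← hn]
            apply Set.ncard_lt_ncard _ (Set.toFinite _)
            refine ⟨?_, ?_⟩
            · intro x hx
              refine ⟨hx.1, fun hxK => hx.2 ⟨Or.inr hxK, ?_⟩⟩
              rintro rfl
              exact hf.2 hx.1
            · intro h
              exact (h ⟨heI, heK⟩).2 ⟨Or.inl rfl, hfe⟩
          · intro x hx
            rcases hx.1 with rfl | h
            · exact Or.inl heI
            · exact hKs h
          · have h1 : (insert e K).ncard = K.ncard + 1 :=
              Set.ncard_insert_of_notMem heK (Set.toFinite _)
            have h2 : ((insert e K) \ {f}).ncard = (insert e K).ncard - 1 :=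
              Set.ncard_sdiff_singleton_of_mem (Or.inr hf.1)
            omega
        · exfalso
          push Not at hex
          have hne : (K \ I).Nonempty := by
            rw [Set.nonempty_iff_ne_empty]
            intro h
            have : K ⊆ I := Set.sdiff_eq_empty.1 h
            exact absurd (Set.ncard_le_ncard this (Set.toFinite _)) (by omega)
          have hcirc : ∀ f ∈ K \ I, ∃ X ∈ O.circuits, Function.support X ⊆ insert e K ∧ X f = 0 := by
            intro f hf
            have := hex f hf
            unfold Indep at this
            push Not at this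
            obtain ⟨X, hX, hXs⟩ := this
            refine ⟨X, hX, fun x hx => (hXs hx).1, ?_⟩
            by_contra hXf
            exact (hXs hXf).2 rfl
          obtain ⟨g, hg⟩ := hne
          obtain ⟨X, hX, hXs, hXg⟩ := hcirc g hg
          have hh : ∃ h ∈ K \ I, X h ≠ 0 := by
            by_contra hcon
            push Not at hcon
            apply hI X hX
            intro x hx
            rcases hXs hx with rfl | h
            · exact heI
            · by_contra hxI
              exact hx (hcon x ⟨h, hxI⟩)
          obtain ⟨h, hhK, hXh⟩ := hh
          obtain ⟨Y, hY, hYs, hYh⟩ := hcirc h hhK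
          have := support_eq_of_subset_insert hK hX hY hXs hYs
          have h2 : h ∈ Function.support Y := by rw [← this]; exact hXh
          exact h2 hYh
  exact key _ J hJ subset_union_right hlt rfl

variable (O)

/-- The underlying matroid of an oriented matroid with finite ground set `α`. -/
noncomputable def toMatroid [Finite α] : Matroid α :=
  (IndepMatroid.ofFinite (E := Set.univ) Set.finite_univ O.Indep
    (fun X hX hs => by
      apply O.zero_notMem
      have : X = 0 := Function.support_eq_empty_iff.1 (Set.subset_empty_iff.1 hs)
      rwa [this] at hX)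
    (fun _ _ hJ hIJ => hJ.subset hIJ)
    (fun _ _ hI hJ h => augment hI hJ h)
    (fun _ _ => Set.subset_univ _)).matroid

@[simp] theorem toMatroid_E [Finite α] : O.toMatroid.E = Set.univ := rfl

@[simp] theorem toMatroid_indep [Finite α] {I : Set α} : O.toMatroid.Indep I ↔ O.Indep I :=
  Iff.rfl

/-- The circuits of the underlying matroid are the supports of the signed circuits. -/
theorem toMatroid_isCircuit [Finite α] {C : Set α} :
    O.toMatroid.IsCircuit C ↔ ∃ X ∈ O.circuits, Function.support X = C := by
  rw [Matroid.isCircuit_iff_forall_ssubset]
  constructor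
  · rintro ⟨hd, hi⟩
    rw [Matroid.Dep, toMatroid_indep] at hd
    have h1 := hd.1
    unfold Indep at h1
    push Not at h1
    obtain ⟨X, hX, hXs⟩ := h1
    refine ⟨X, hX, ?_⟩
    by_contra hne
    have := hi (hXs.ssubset_of_ne hne)
    rw [toMatroid_indep] at this
    exact this X hX le_rfl
  · rintro ⟨X, hX, rfl⟩
    refine ⟨⟨?_, Set.subset_univ _⟩, ?_⟩
    · rw [toMatroid_indep]
      intro h
      exact h X hX le_rfl
    · intro I hI
      rw [toMatroid_indep]
      intro Y hY hs
      rcases O.incomp Y hY X hX (hs.trans hI.subset) with h | h
      · rw [h] at hs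
        exact hI.not_subset hs
      · rw [h, support_neg_sign] at hs
        exact hI.not_subset hs

theorem mem_closure_iff [Finite α] {F : Set α} {e : α} (he : e ∉ F) :
    e ∈ O.toMatroid.closure F ↔
      ∃ X ∈ O.circuits, X e ≠ 0 ∧ Function.support X ⊆ insert e F := by
  rw [Matroid.mem_closure_iff_exists_isCircuit he]
  constructor
  · rintro ⟨C, hC, hcirc, heC⟩
    obtain ⟨X, hX, rfl⟩ := (O.toMatroid_isCircuit).1 hcirc
    exact ⟨X, hX, heC, hC⟩
  · rintro ⟨X, hX, hXe, hXs⟩
    exact ⟨Function.support X, hXs, (O.toMatroid_isCircuit).2 ⟨X, hX, rfl⟩, hXe⟩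

end OMat

end Pool.Agent.Q288.OM
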