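import Mathlib
import Pool.Agent.Q288.OM.Basic

/-!
# Realizable oriented matroids

The oriented matroid of a subspace `K` of `ℝ^α`: its signed circuits are the sign vectors of the
nonzero elements of `K` with minimal support.
-/

set_option autoImplicit false

open Set

namespace Pool.Agent.Q288.OM

variable {α : Type*}

/-- The elementary vectors of `K`: nonzero elements of `K` with minimal support. -/
def IsElem (K : Submodule ℝ (α → ℝ)) (x : α → ℝ) : Prop :=
  x ∈ K ∧ x ≠ 0 ∧ ∀ y ∈ K, y ≠ 0 → Function.support y ⊆ Function.support x →
    Function.support y = Function.support x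

/-- The sign vector of a real vector. -/
noncomputable def sgn (x : α → ℝ) : α → SignType := fun a => SignType.sign (x a)

theorem sgn_ne_zero {x : α → ℝ} {a : α} : sgn x a ≠ 0 ↔ x a ≠ 0 := by
  simp [sgn]

theorem support_sgn (x : α → ℝ) : Function.support (sgn x) = Function.support x := by
  ext a
  simp [sgn]

theorem sgn_neg (x : α → ℝ) : sgn (-x) = - sgn x := by
  ext a
  simp [sgn, Left.sign_neg]

theorem exists_conformal [Finite α] (K : Submodule ℝ (α → ℝ)) (x : α → ℝ) (hx : x ∈ K)
    (hx0 : x ≠ 0) : ∃ y, IsElem K y ∧ ∀ f, y f ≠ 0 → sgn y f = sgn x f := by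
  obtain ⟨n, hn⟩ : ∃ n, (Function.support x).ncard = n := ⟨_, rfl⟩
  induction n using Nat.strong_induction_on generalizing x with
  | _ n ih =>
    by_cases hel : IsElem K x
    · exact ⟨x, hel, fun f _ => rfl⟩
    · unfold IsElem at hel
      push Not at hel
      obtain ⟨z, hz, hz0, hzs, hzne⟩ := hel hx hx0
      -- choose sign
      obtain ⟨y, hy, hy0, hys, hyne, f1, hf1⟩ : ∃ y ∈ K, y ≠ 0 ∧
          Function.support y ⊆ Function.support x ∧ Function.support y ≠ Function.support x ∧
          ∃ f, 0 < y f * x f := by
        obtain ⟨g, hg⟩ := Function.ne_iff.1 hz0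
        have hg' : z g ≠ 0 := hg
        have hxg : x g ≠ 0 := hzs hg'
        rcases lt_or_gt_of_ne (mul_ne_zero hg' hxg) with h | h
        · refine ⟨-z, K.neg_mem hz, neg_ne_zero.2 hz0, ?_, ?_, g, ?_⟩
          · rwa [Function.support_neg]
          · rwa [Function.support_neg]
          · rw [Pi.neg_apply]; linarith
        · exact ⟨z, hz, hz0, hzs, hzne, g, h⟩
      -- the minimal ratio
      have hfin : {f | 0 < y f * x f}.Finite := Set.toFinite _
      obtain ⟨f0, hf0, hmin⟩ := Set.exists_min_image {f | 0 < y f * x f} (fun f => x f / y f) hfin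
        ⟨f1, hf1⟩
      simp only [Set.mem_ofPred_eq] at hf0 hmin
      set t := x f0 / y f0 with ht
      have hyf0 : y f0 ≠ 0 := by
        rintro h
        rw [h] at hf0
        simp at hf0
      have ht0 : 0 < t := by
        rw [ht]
        have : x f0 / y f0 = (y f0 * x f0) / (y f0) ^ 2 := by
          field_simp
        rw [this]
        positivity
      set x' := x - t • y with hx'
      have hx'K : x' ∈ K := K.sub_mem hx (K.smul_mem t hy)
      have hval : ∀ f, x' f = x f - t * y f := fun f => by simp [hx']
      have hx'f0 : x' f0 = 0 := by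
        rw [hval, ht]
        field_simp
        ring
      have hss : Function.support y ⊂ Function.support x := hys.ssubset_of_ne hyne
      obtain ⟨g, hgx, hgy⟩ := Set.exists_of_ssubset hss
      have hgy' : y g = 0 := by
        by_contra h
        exact hgy h
      have hx'0 : x' ≠ 0 := by
        intro h
        have := congrFun h g
        rw [hval, hgy'] at this
        apply hgx
        simpa using this
      have hconf : ∀ f, x' f ≠ 0 → sgn x' f = sgn x f := by
        intro f hf
        unfold sgn
        rcases lt_trichotomy (x f) 0 with h | h | h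
        · rw [sign_neg h]
          apply sign_neg
          rcases lt_or_ge (y f) 0 with h2 | h2
          · have h3 : 0 < y f * x f := mul_pos_of_neg_of_neg h2 h
            have h4 := hmin f h3
            have h5 : x' f ≤ 0 := by
              rw [hval]
              have : x f ≤ t * y f := by
                rw [le_div_iff_of_neg h2] at h4
                exact h4
              linarith
            exact lt_of_le_of_ne h5 hf
          · rw [hval]
            nlinarith [mul_nonneg ht0.le h2]
        · exfalso
          apply hf
          have : y f = 0 := by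
            by_contra h2
            exact hys h2 h
          rw [hval, h, this]; simp
        · rw [sign_pos h]
          apply sign_pos
          rcases le_or_gt (y f) 0 with h2 | h2
          · rw [hval]
            nlinarith [mul_nonneg ht0.le (neg_nonneg.2 h2)]
          · have h3 : 0 < y f * x f := mul_pos h2 h
            have h4 := hmin f h3
            have h5 : 0 ≤ x' f := by
              rw [hval]
              have : t * y f ≤ x f := by
                rw [le_div_iff₀ h2] at h4
                exact h4
              linarith
            exact lt_of_le_of_ne h5 (Ne.symm hf)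
      have hsub : Function.support x' ⊂ Function.support x := by
        rw [Set.ssubset_iff_of_subset]
        · refine ⟨f0, ?_, ?_⟩
          · intro h
            rw [h] at hf0
            simp at hf0
          · simpa using hx'f0
        · intro f hf
          have := hconf f hf
          have h2 : sgn x' f ≠ 0 := sgn_ne_zero.2 hf
          rw [this] at h2
          exact sgn_ne_zero.1 h2
      obtain ⟨w, hw, hwc⟩ := ih (Function.support x').ncard
        (by rw [← hn]; exact Set.ncard_lt_ncard hsub (Set.toFinite _)) x' hx'K hx'0 rfl
      refine ⟨w, hw, fun f hf => ?_⟩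
      have h1 := hwc f hf
      rw [h1]
      apply hconf
      apply sgn_ne_zero.1
      rw [← h1]
      exact sgn_ne_zero.2 hf

theorem IsElem.neg {K : Submodule ℝ (α → ℝ)} {x : α → ℝ} (h : IsElem K x) : IsElem K (-x) := by
  obtain ⟨h1, h2, h3⟩ := h
  refine ⟨K.neg_mem h1, neg_ne_zero.2 h2, ?_⟩
  rw [Function.support_neg]
  exact h3

/-- Two elementary vectors with nested supports are proportional. -/
theorem IsElem.prop {K : Submodule ℝ (α → ℝ)} {x y : α → ℝ} (hx : IsElem K x) (hy : IsElem K y)
    (h : Function.support x ⊆ Function.support y) : ∃ c : ℝ, c ≠ 0 ∧ x = c • y := by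
  obtain ⟨e, he⟩ := Function.ne_iff.1 hx.2.1
  have hxe : x e ≠ 0 := he
  have hye : y e ≠ 0 := h hxe
  have hz : x - (x e / y e) • y = 0 := by
    by_contra hne
    have hK : x - (x e / y e) • y ∈ K := K.sub_mem hx.1 (K.smul_mem _ hy.1)
    have hs : Function.support (x - (x e / y e) • y) ⊆ Function.support y := by
      intro f hf
      by_contra hfy
      have h1 : y f = 0 := by
        by_contra h'
        exact hfy h'
      have h2 : x f = 0 := by
        by_contra h'
        exact hfy (h h')
      apply hf
      simp [h1, h2]
    have := hy.2.2 _ hK hne hs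
    have h3 : e ∈ Function.support (x - (x e / y e) • y) := by
      rw [this]; exact hye
    apply h3
    simp [hye]
  exact ⟨x e / y e, div_ne_zero hxe hye, sub_eq_zero.1 hz⟩

/-- The oriented matroid of a subspace. -/
noncomputable def ofSubspace [Finite α] (K : Submodule ℝ (α → ℝ)) : OMat α where
  circuits := {X | ∃ x, IsElem K x ∧ sgn x = X}
  zero_notMem := by
    rintro ⟨x, hx, h⟩
    apply hx.2.1
    ext a
    by_contra ha
    have := congrFun h a
    exact (sgn_ne_zero.2 ha) this
  neg_mem := by
    rintro X ⟨x, hx, rfl⟩
    exact ⟨-x, hx.neg, sgn_neg x⟩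
  incomp := by
    rintro X ⟨x, hx, rfl⟩ Y ⟨y, hy, rfl⟩ h
    rw [support_sgn, support_sgn] at h
    obtain ⟨c, hc, rfl⟩ := hx.prop hy h
    rcases lt_or_gt_of_ne hc with h | h
    · right
      ext a
      simp only [sgn, Pi.smul_apply, smul_eq_mul, Pi.neg_apply, sign_mul, sign_neg h]
      simp
    · left
      ext a
      simp only [sgn, Pi.smul_apply, smul_eq_mul, sign_mul, sign_pos h, one_mul]
  elim := by
    rintro X ⟨x, hx, rfl⟩ Y ⟨y, hy, rfl⟩ hne e hXe hYe
    rw [sgn_ne_zero] at hXe
    have hye : y e ≠ 0 := by
      rw [← sgn_ne_zero, hYe]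
      have := sgn_ne_zero.2 hXe
      revert this
      generalize sgn x e = a
      revert a; decide
    -- z = |y e| x + |x e| y
    set z := |y e| • x + |x e| • y with hz
    have hzK : z ∈ K := K.add_mem (K.smul_mem _ hx.1) (K.smul_mem _ hy.1)
    have hval : ∀ f, z f = |y e| * x f + |x e| * y f := fun f => by simp [hz]
    have hze : z e = 0 := by
      rw [hval]
      unfold sgn at hYe
      rcases lt_or_gt_of_ne hXe with h | h
      · rw [sign_neg h, neg_neg] at hYe
        have hy' : 0 < y e := sign_eq_one_iff.1 hYe
        rw [abs_of_pos hy', abs_of_neg h]; ring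
      · rw [sign_pos h] at hYe
        have hy' : y e < 0 := sign_eq_neg_one_iff.1 hYe
        rw [abs_of_neg hy', abs_of_pos h]; ring
    have hz0 : z ≠ 0 := by
      intro h
      apply hne
      ext f
      have := congrFun h f
      rw [hval] at this
      simp only [Pi.zero_apply] at this
      have h1 : x f = - (|x e| / |y e|) * y f := by
        have : |y e| ≠ 0 := abs_ne_zero.2 hye
        field_simp
        linarith
      have h2 : 0 < |x e| / |y e| := div_pos (abs_pos.2 hXe) (abs_pos.2 hye)
      simp only [sgn, Pi.neg_apply]
      rw [h1, sign_mul, Left.sign_neg, sign_pos h2]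
      simp
    obtain ⟨w, hw, hwc⟩ := exists_conformal K z hzK hz0
    refine ⟨sgn w, ⟨w, hw, rfl⟩, ?_, ?_⟩
    · by_contra h
      have h1 := hwc e (sgn_ne_zero.1 h)
      rw [h1] at h
      exact (sgn_ne_zero.1 h) hze
    · intro f hf
      have h1 := hwc f (sgn_ne_zero.1 hf)
      rw [h1] at hf ⊢
      have hzf := sgn_ne_zero.1 hf
      rw [hval] at hzf
      have hA : 0 < |y e| := abs_pos.2 hye
      have hB : 0 < |x e| := abs_pos.2 hXe
      unfold sgn
      rw [hval]
      rcases lt_trichotomy (x f) 0 with h | h | h
      · rcases lt_trichotomy (y f) 0 with h' | h' | h'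
        · left
          rw [sign_neg h, sign_neg (by nlinarith)]
        · left
          rw [sign_neg h, h', mul_zero, add_zero, sign_neg (by nlinarith)]
        · rcases lt_or_gt_of_ne hzf with h2 | h2
          · left; rw [sign_neg h2, sign_neg h]
          · right; rw [sign_pos h2, sign_pos h']
      · right
        rw [h, mul_zero, zero_add, sign_mul, sign_pos hB, one_mul]
      · rcases lt_trichotomy (y f) 0 with h' | h' | h'
        · rcases lt_or_gt_of_ne hzf with h2 | h2
          · right; rw [sign_neg h2, sign_neg h']
          · left; rw [sign_pos h2, sign_pos h]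
        · left
          rw [sign_pos h, h', mul_zero, add_zero, sign_pos (by nlinarith)]
        · left
          rw [sign_pos h, sign_pos (by nlinarith)]

/-- Every element of `K` which is nonzero at `e` dominates an elementary vector which is nonzero
at `e`. -/
theorem exists_elem_of_mem [Finite α] (K : Submodule ℝ (α → ℝ)) (e : α) (x : α → ℝ) (hx : x ∈ K)
    (hxe : x e ≠ 0) : ∃ y, IsElem K y ∧ y e ≠ 0 ∧ Function.support y ⊆ Function.support x := by
  obtain ⟨n, hn⟩ : ∃ n, (Function.support x).ncard = n := ⟨_, rfl⟩
  induction n using Nat.strong_induction_on generalizing x with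
  | _ n ih =>
    by_cases hel : IsElem K x
    · exact ⟨x, hel, hxe, le_rfl⟩
    · have hx0 : x ≠ 0 := by
        rintro rfl
        exact hxe rfl
      unfold IsElem at hel
      push Not at hel
      obtain ⟨z, hz, hz0, hzs, hzne⟩ := hel hx hx0
      have hss : Function.support z ⊂ Function.support x := hzs.ssubset_of_ne hzne
      by_cases hze : z e = 0
      · obtain ⟨g, hg⟩ := Function.ne_iff.1 hz0
        have hg' : z g ≠ 0 := hg
        have hval : ∀ f, (x - (x g / z g) • z) f = x f - x g / z g * z f := fun f => by simp
        have hs : Function.support (x - (x g / z g) • z) ⊂ Function.support x := by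
          rw [Set.ssubset_iff_of_subset]
          · refine ⟨g, hzs hg', ?_⟩
            simp only [Function.mem_support, not_not]
            rw [hval]
            field_simp
            ring
          · intro f hf
            by_contra hfx
            have h1 : x f = 0 := by
              by_contra h
              exact hfx h
            have h2 : z f = 0 := by
              by_contra h
              exact hfx (hzs h)
            apply hf
            rw [hval, h1, h2]
            simp
        obtain ⟨y, hy, hye, hys⟩ := ih _ (by rw [← hn]; exact Set.ncard_lt_ncard hs (Set.toFinite _))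
          (x - (x g / z g) • z) (K.sub_mem hx (K.smul_mem _ hz)) (by rw [hval, hze]; simpa using hxe)
          rfl
        exact ⟨y, hy, hye, hys.trans hs.subset⟩
      · obtain ⟨y, hy, hye, hys⟩ := ih _ (by rw [← hn]; exact Set.ncard_lt_ncard hss (Set.toFinite _))
          z hz hze rfl
        exact ⟨y, hy, hye, hys.trans hss.subset⟩

/-- Closure in the underlying matroid of the oriented matroid of a subspace. -/
theorem mem_closure_ofSubspace [Finite α] {K : Submodule ℝ (α → ℝ)} {F : Set α} {e : α}
    (he : e ∉ F) : e ∈ (ofSubspace K).toMatroid.closure F ↔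
      ∃ x ∈ K, x e ≠ 0 ∧ Function.support x ⊆ insert e F := by
  rw [OMat.mem_closure_iff _ he]
  constructor
  · rintro ⟨X, ⟨x, hx, rfl⟩, hXe, hXs⟩
    exact ⟨x, hx.1, sgn_ne_zero.1 hXe, by rwa [support_sgn] at hXs⟩
  · rintro ⟨x, hx, hxe, hxs⟩
    obtain ⟨y, hy, hye, hys⟩ := exists_elem_of_mem K e x hx hxe
    exact ⟨sgn y, ⟨y, hy, rfl⟩, sgn_ne_zero.2 hye, by rw [support_sgn]; exact hys.trans hxs⟩

/-- The oriented matroid of linear dependencies of a finite family of vectors of `ℝ^d`. -/
noncomputable def ofVec [Fintype α] {d : ℕ} (v : α → Fin d → ℝ) : OMat α :=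
  ofSubspace (LinearMap.ker (Fintype.linearCombination ℝ v))

end Pool.Agent.Q288.OM
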